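import Pool.Agent.H301X.BG.Stmts

/-!
# Compactness of the restriction from Montel's theorem and small tails
-/

set_option autoImplicit false

open MeasureTheory Topology Filter Set Metric
open scoped ENNReal NNReal ContDiff

namespace Pool.Agent.H679R3.BG

open Pool.Agent.Results.MP_46c13c_an.UnequalTypes Pool.Agent.H301X.BG

lemma sq_eLpNorm {α : Type} [MeasurableSpace α] (μ : Measure α) (f : α → ℂ) :
    eLpNorm f 2 μ ^ 2 = ∫⁻ z, ‖f z‖ₑ ^ 2 ∂μ := by
  have h := eLpNorm_nnreal_pow_eq_lintegral (μ := μ) (f := f) (p := 2) two_ne_zero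
  have e : ((2 : ℝ≥0) : ℝ) = 2 := by norm_num
  rw [e] at h
  simp only [ENNReal.rpow_two] at h
  exact h

theorem taskCompact : TaskCompact := by
  intro hM n Ω₁ Ω₂ p h1 h2 hsub hbd hcl htail f C hmem hnorm
  obtain ⟨g, φ, hφ, hg, hconv⟩ := hM n Ω₁ f (C ^ 2) h1 (fun j => (hmem j).1) (by
    intro j
    rw [← sq_eLpNorm]
    have := pow_le_pow_left' (hnorm j) 2
    simpa using this)
  set μ₁ := (volume : Measure (Fin n → ℂ)).restrict Ω₁ with hμ₁
  set μ₂ := (volume : Measure (Fin n → ℂ)).restrict Ω₂ with hμ₂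
  have hgm : AEStronglyMeasurable g μ₁ := hg.continuousOn.aestronglyMeasurable h1.measurableSet
  have hpt : ∀ z ∈ Ω₁, Tendsto (fun j => f (φ j) z) atTop (𝓝 (g z)) := by
    intro z hz
    have := hconv {z} isCompact_singleton (by simpa using hz)
    exact this.tendsto_at (mem_singleton z)
  have hgn : eLpNorm g 2 μ₁ ≤ C := by
    refine (Lp.eLpNorm_lim_le_liminf_eLpNorm (f := fun j => f (φ j))
      (fun j => (hmem (φ j)).2.aestronglyMeasurable) g ?_).trans ?_
    · exact (ae_restrict_iff' h1.measurableSet).2 (Eventually.of_forall hpt)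
    · refine (liminf_le_liminf (Eventually.of_forall fun j => hnorm (φ j))).trans ?_
      simp
  have hgL : MemLp g 2 μ₁ := ⟨hgm, hgn.trans_lt ENNReal.coe_lt_top⟩
  refine ⟨g, φ, ⟨hg.mono hsub, hgL.mono_measure (Measure.restrict_mono hsub le_rfl)⟩, hφ, ?_⟩
  -- the squares tend to zero
  have hsq : Tendsto (fun j => ∫⁻ z in Ω₂, ‖(f (φ j) - g) z‖ₑ ^ 2) atTop (𝓝 0) := by
    rw [ENNReal.tendsto_nhds_zero]
    intro e₀ he₀
    obtain ⟨e, he, hee⟩ := ENNReal.lt_iff_exists_nnreal_btwn.1 he₀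
    have he' : (0 : ℝ) < e := by exact_mod_cast he
    set η : ℝ := e / 2 / (4 * (C : ℝ) ^ 2 + 1) with hη
    have hη0 : 0 < η := by positivity
    obtain ⟨ε, hε, htl⟩ := htail η hη0
    set K : Set (Fin n → ℂ) := closure Ω₂ \ ball p ε with hK
    have hKc : IsCompact K := (hbd.isCompact_closure).diff isOpen_ball
    have hKs : K ⊆ Ω₁ := by
      rintro z ⟨hz1, hz2⟩
      rcases hcl hz1 with rfl | hz
      · exact absurd (mem_ball_self hε) hz2
      · exact hz
    set V : ℝ := (volume K).toReal with hV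
    have hV0 : 0 ≤ V := ENNReal.toReal_nonneg
    set δ : ℝ := Real.sqrt (e / 2 / (V + 1)) with hδ
    have hδ0 : 0 < δ := Real.sqrt_pos.2 (by positivity)
    have hδ2 : δ ^ 2 = e / 2 / (V + 1) := Real.sq_sqrt (by positivity)
    have hev := (Metric.tendstoUniformlyOn_iff.1 (hconv K hKc hKs)) δ hδ0
    filter_upwards [hev] with j hj
    refine le_trans ?_ hee.le
    have hsplit : Ω₂ ⊆ (Ω₂ ∩ ball p ε) ∪ K := by
      intro z hz
      by_cases hzb : z ∈ ball p ε
      · exact Or.inl ⟨hz, hzb⟩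
      · exact Or.inr ⟨subset_closure hz, hzb⟩
    have hA : ∫⁻ z in Ω₂ ∩ ball p ε, ‖(f (φ j) - g) z‖ₑ ^ 2 ≤ ENNReal.ofReal (e / 2) := by
      refine (htl (f (φ j) - g) ((hmem (φ j)).1.sub hg)).trans ?_
      rw [← sq_eLpNorm]
      have hsub2 : eLpNorm (f (φ j) - g) 2 μ₁ ≤ C + C := by
        refine (eLpNorm_sub_le (hmem (φ j)).2.aestronglyMeasurable hgm (by norm_num)).trans ?_
        exact add_le_add (hnorm (φ j)) hgn
      have h4 : eLpNorm (f (φ j) - g) 2 μ₁ ^ 2 ≤ ENNReal.ofReal (4 * (C : ℝ) ^ 2) := by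
        refine (pow_le_pow_left' hsub2 2).trans (le_of_eq ?_)
        rw [← ENNReal.coe_add, ← ENNReal.coe_pow, ENNReal.ofReal, ENNReal.coe_inj]
        apply NNReal.coe_injective
        rw [Real.coe_toNNReal _ (by positivity)]
        push_cast
        ring
      calc ENNReal.ofReal η * eLpNorm (f (φ j) - g) 2 μ₁ ^ 2
          ≤ ENNReal.ofReal η * ENNReal.ofReal (4 * (C : ℝ) ^ 2) := by gcongr
        _ = ENNReal.ofReal (η * (4 * (C : ℝ) ^ 2)) := (ENNReal.ofReal_mul hη0.le).symm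
        _ ≤ ENNReal.ofReal (e / 2) := by
            apply ENNReal.ofReal_le_ofReal
            rw [hη, div_mul_eq_mul_div, div_le_iff₀ (by positivity)]
            nlinarith [he']
    have hB : ∫⁻ z in K, ‖(f (φ j) - g) z‖ₑ ^ 2 ≤ ENNReal.ofReal (e / 2) := by
      calc ∫⁻ z in K, ‖(f (φ j) - g) z‖ₑ ^ 2 ≤ ∫⁻ z in K, ENNReal.ofReal (δ ^ 2) := by
            apply setLIntegral_mono' hKc.measurableSet
            intro z hz
            have h5 := (hj z hz).le
            rw [dist_eq_norm, norm_sub_rev] at h5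
            have h6 : ‖(f (φ j) - g) z‖ₑ ≤ ENNReal.ofReal δ := by
              rw [← ofReal_norm]
              exact ENNReal.ofReal_le_ofReal h5
            calc ‖(f (φ j) - g) z‖ₑ ^ 2 ≤ ENNReal.ofReal δ ^ 2 := pow_le_pow_left' h6 2
              _ = ENNReal.ofReal (δ ^ 2) := (ENNReal.ofReal_pow hδ0.le 2).symm
        _ = ENNReal.ofReal (δ ^ 2) * volume K := by rw [setLIntegral_const]
        _ = ENNReal.ofReal (δ ^ 2) * ENNReal.ofReal V := by
            rw [hV, ENNReal.ofReal_toReal hKc.measure_lt_top.ne]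
        _ = ENNReal.ofReal (δ ^ 2 * V) := (ENNReal.ofReal_mul (by positivity)).symm
        _ ≤ ENNReal.ofReal (e / 2) := by
            apply ENNReal.ofReal_le_ofReal
            rw [hδ2, div_mul_eq_mul_div, div_le_iff₀ (by positivity)]
            nlinarith [he']
    calc ∫⁻ z in Ω₂, ‖(f (φ j) - g) z‖ₑ ^ 2
        ≤ ∫⁻ z in (Ω₂ ∩ ball p ε) ∪ K, ‖(f (φ j) - g) z‖ₑ ^ 2 := lintegral_mono_set hsplit
      _ ≤ (∫⁻ z in Ω₂ ∩ ball p ε, ‖(f (φ j) - g) z‖ₑ ^ 2) +
          ∫⁻ z in K, ‖(f (φ j) - g) z‖ₑ ^ 2 := lintegral_union_le _ _ _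
      _ ≤ ENNReal.ofReal (e / 2) + ENNReal.ofReal (e / 2) := add_le_add hA hB
      _ = e := by
          rw [← ENNReal.ofReal_add (by positivity) (by positivity), add_halves,
            ENNReal.ofReal_coe_nnreal]
  rw [ENNReal.tendsto_nhds_zero] at hsq ⊢
  intro e he
  filter_upwards [hsq (e ^ 2) (ENNReal.pow_pos he 2)] with j hj
  rw [← sq_eLpNorm] at hj
  by_contra hlt
  rw [not_le] at hlt
  exact absurd hj (not_le.2 (ENNReal.pow_lt_pow_left two_ne_zero hlt))

end Pool.Agent.H679R3.BG
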