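import Pool.Agent.Helper694.CS.J_hnn_rf
import Pool.Agent.Helper694.CS.J_free_rf
import Pool.Agent.Helper694.CS.J_free_comm2
import Pool.Agent.Helper694.CS.J_cyciso
import Mathlib

set_option autoImplicit false

/-!
The group `G = ⟨x, y, t ∣ t x t⁻¹ = [x, y x y⁻¹]⟩` is residually finite, but `x ≠ 1` lies in
every term of the derived series.
-/

namespace Pool.H679R3.RfSolv

open Pool.CS

abbrev F2 := FreeGroup (Fin 2)

/-- the letter `x`. -/
def x : F2 := FreeGroup.of 0
/-- the letter `y`. -/
def y : F2 := FreeGroup.of 1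
/-- the word `[x, y x y⁻¹]`. -/
def w : F2 := x * (y * x * y⁻¹) * x⁻¹ * (y * x * y⁻¹)⁻¹

theorem w_toWord : w.toWord =
    [(0, true), (1, true), (0, true), (1, false), (0, false), (1, true), (0, false), (1, false)] := by
  decide

theorem x_toWord : x.toWord = [(0, true)] := by decide

theorem conj_nil (c : F2) (n : ℕ) (l : List (Fin 2 × Bool)) (a b : Fin 2 × Bool)
    (hab : b ≠ (a.1, !a.2))
    (h : a :: l = FreeGroup.reduceCyclically.conjugator c.toWord ++
      (List.replicate n (FreeGroup.reduceCyclically c.toWord)).flatten ++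
      FreeGroup.invRev (FreeGroup.reduceCyclically.conjugator c.toWord))
    (hb : (a :: l).getLast? = some b) :
    FreeGroup.reduceCyclically.conjugator c.toWord = [] := by
  generalize FreeGroup.reduceCyclically.conjugator c.toWord = C at *
  generalize (List.replicate n (FreeGroup.reduceCyclically c.toWord)).flatten = M at *
  cases C with
  | nil => rfl
  | cons e t =>
    exfalso
    have h1' : a :: l = (e :: t ++ M ++ FreeGroup.invRev t) ++ [(e.1, !e.2)] := by
      rw [h]; simp [FreeGroup.invRev]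
    have h3 := congrArg List.getLast? h1'
    rw [List.getLast?_concat, hb] at h3
    have h2 := congrArg List.head? h1'
    simp at h2
    subst h2
    apply hab
    simpa using h3

/-- a word which is cyclically reduced and is not periodic is not a proper power -/
theorem not_power (c : F2) (n : ℕ) (hn : n ≠ 0) (h : w = c ^ n) : n = 1 := by
  classical
  have h1 := FreeGroup.toWord_pow c n
  rw [← h, FreeGroup.reduceCyclically.reduce_flatten_replicate FreeGroup.isReduced_toWord,
    if_neg hn] at h1
  have hw := w_toWord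
  rw [hw] at h1
  have hC0 := conj_nil c n _ _ (1, false) (by decide) h1 (by simp)
  rw [hC0] at h1
  clear hC0
  set L := FreeGroup.reduceCyclically c.toWord with hL
  clear_value L
  simp only [List.nil_append, FreeGroup.invRev_empty, List.append_nil] at h1
  have hlen := congrArg List.length h1
  simp at hlen
  have hdvd : n ∣ 8 := ⟨L.length, hlen⟩
  have hn8 : n ≤ 8 := Nat.le_of_dvd (by norm_num) hdvd
  have hLt : L = (List.replicate n L).flatten.take L.length := by
    obtain ⟨m, rfl⟩ := Nat.exists_eq_succ_of_ne_zero hn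
    simp [List.replicate_succ]
  rw [← h1] at hLt
  generalize L.length = l at hLt hlen
  subst hLt
  clear hL h hw
  have hn0 : 0 < n := Nat.pos_of_ne_zero hn
  clear hn
  interval_cases n
  · rfl
  · exfalso
    have : l = 4 := by omega
    subst this
    revert h1; decide
  · omega
  · exfalso
    have : l = 2 := by omega
    subst this
    revert h1; decide
  · omega
  · omega
  · omega
  · exfalso
    have : l = 1 := by omega
    subst this
    revert h1; decide

theorem not_power_x (c : F2) (n : ℕ) (hn : n ≠ 0) (h : x = c ^ n) : n = 1 := by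
  classical
  have h1 := FreeGroup.toWord_pow c n
  rw [← h, FreeGroup.reduceCyclically.reduce_flatten_replicate FreeGroup.isReduced_toWord,
    if_neg hn] at h1
  have hw := x_toWord
  rw [hw] at h1
  have hC0 := conj_nil c n _ _ (0, true) (by decide) h1 (by simp)
  rw [hC0] at h1
  have hlen := congrArg List.length h1
  simp at hlen
  exact Nat.eq_one_of_mul_eq_one_right hlen.symm

theorem not_zpower_of (u : F2) (hu : u ≠ 1) (h : ∀ (c : F2) (n : ℕ), n ≠ 0 → u = c ^ n → n = 1)
    (c : F2) (n : ℤ) (hc : u = c ^ n) : n = 1 ∨ n = -1 := by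
  rcases lt_trichotomy n 0 with hn | hn | hn
  · right
    have h2 := h c⁻¹ n.natAbs (by omega) (by
      rw [hc, inv_pow, ← zpow_natCast, ← zpow_neg]
      congr 1; omega)
    omega
  · exfalso; apply hu; rw [hc, hn, zpow_zero]
  · left
    have h2 := h c n.natAbs (by omega) (by
      rw [hc, ← zpow_natCast]
      congr 1; omega)
    omega

/-- the centralizer of a non-power is the cyclic group it generates -/
theorem mem_zpowers_of_comm (u : F2) (hu : u ≠ 1)
    (h : ∀ (c : F2) (n : ℕ), n ≠ 0 → u = c ^ n → n = 1) (g : F2) (hg : g * u = u * g) :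
    g ∈ Subgroup.zpowers u := by
  -- the subgroup generated by `g, u` is free and abelian, so cyclic
  set H := Subgroup.closure ({g, u} : Set F2) with hH
  have hgH : g ∈ H := Subgroup.subset_closure (by simp)
  have huH : u ∈ H := Subgroup.subset_closure (by simp)
  have hcomm : ∀ a ∈ H, ∀ b ∈ H, a * b = b * a := by
    intro a ha b hb
    have hu1 : ∀ c ∈ H, u * c = c * u := by
      intro c hc
      have : H ≤ Subgroup.centralizer {u} := by
        rw [hH, Subgroup.closure_le]
        intro z hz
        rw [SetLike.mem_coe, Subgroup.mem_centralizer_singleton_iff]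
        rcases hz with rfl | rfl
        · exact hg
        · rfl
      have h3 := this hc
      rw [Subgroup.mem_centralizer_singleton_iff] at h3
      exact h3.symm
    exact free_comm2 _ u a b hu (hu1 a ha) (hu1 b hb)
  have hsub : ∀ a b : IsFreeGroup.Generators H, a = b := by
    intro a b
    by_contra hab
    let E := IsFreeGroup.mulEquiv H
    have hc := N_free_comm2.center_free a b hab (FreeGroup.of a) (fun z => by
      apply E.injective
      rw [map_mul, map_mul]
      exact Subtype.ext (hcomm _ (E (FreeGroup.of a)).2 _ (E z).2))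
    exact FreeGroup.of_ne_one a hc
  rcases isEmpty_or_nonempty (IsFreeGroup.Generators H) with hE | ⟨⟨a⟩⟩
  · exfalso
    apply hu
    let E := IsFreeGroup.mulEquiv H
    have : E.symm ⟨u, huH⟩ = E.symm 1 := Subsingleton.elim _ _
    have := E.symm.injective this
    exact congrArg Subtype.val this
  · let E := IsFreeGroup.mulEquiv H
    have hz : ∀ v : FreeGroup (IsFreeGroup.Generators H), v ∈ Subgroup.zpowers (FreeGroup.of a) := by
      intro v
      have h1 : Subgroup.closure (Set.range (FreeGroup.of : IsFreeGroup.Generators H → _)) ≤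
          Subgroup.zpowers (FreeGroup.of a) := by
        rw [Subgroup.closure_le]
        rintro _ ⟨c, rfl⟩
        rw [hsub c a]
        exact Subgroup.mem_zpowers _
      rw [FreeGroup.closure_range_of] at h1
      exact h1 (Subgroup.mem_top _)
    obtain ⟨m, hm⟩ := Subgroup.mem_zpowers_iff.1 (hz (E.symm ⟨g, hgH⟩))
    obtain ⟨n, hn⟩ := Subgroup.mem_zpowers_iff.1 (hz (E.symm ⟨u, huH⟩))
    have hm' : g = ((E (FreeGroup.of a) : H) : F2) ^ m := by
      have := congrArg E hm
      rw [map_zpow, MulEquiv.apply_symm_apply] at this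
      have := congrArg Subtype.val this
      rw [Subgroup.coe_zpow] at this
      exact this.symm
    have hn' : u = ((E (FreeGroup.of a) : H) : F2) ^ n := by
      have := congrArg E hn
      rw [map_zpow, MulEquiv.apply_symm_apply] at this
      have := congrArg Subtype.val this
      rw [Subgroup.coe_zpow] at this
      exact this.symm
    rw [Subgroup.mem_zpowers_iff]
    rcases not_zpower_of u hu h _ n hn' with h1 | h1
    · exact ⟨m, by rw [hm', hn', h1, zpow_one]⟩
    · refine ⟨-m, ?_⟩
      rw [hm', hn', h1]; simp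

theorem sep_of (u : F2) (hu : u ≠ 1)
    (h : ∀ (c : F2) (n : ℕ), n ≠ 0 → u = c ^ n → n = 1) : Sep F2 u := by
  intro g hg
  have h1 : g * u * g⁻¹ * u⁻¹ ≠ 1 := by
    intro h2
    apply hg
    apply mem_zpowers_of_comm u hu h
    rw [mul_inv_eq_one, mul_inv_eq_iff_eq_mul] at h2
    exact h2
  obtain ⟨q, hq⟩ := free_rf (Fin 2) _ h1
  refine ⟨q, ?_⟩
  rintro ⟨n, hn⟩
  have hn' : q.φ u ^ n = q.φ g := hn
  apply hq
  rw [map_mul, map_mul, map_mul, map_inv, map_inv, ← hn']
  group

theorem w_ne : w ≠ 1 := by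
  intro h
  have := congrArg FreeGroup.toWord h
  rw [w_toWord] at this
  simp at this

theorem x_ne : x ≠ 1 := FreeGroup.of_ne_one _

theorem sep_w : Sep F2 w := sep_of w w_ne not_power
theorem sep_x : Sep F2 x := sep_of x x_ne not_power_x

/-! the representation in `SL₃(ZMod m)` -/

section rep
variable (m : ℕ)

abbrev SL3 := Matrix.SpecialLinearGroup (Fin 3) (ZMod m)

def mA : SL3 m := ⟨!![1, 1, 0; 0, 1, 0; 0, 0, 1], by simp [Matrix.det_fin_three]⟩
def mB : SL3 m := ⟨!![1, 0, 0; 0, 1, 1; 0, 0, 1], by simp [Matrix.det_fin_three]⟩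
def mC : SL3 m := ⟨!![1, 0, 1; 0, 1, 0; 0, 0, 1], by simp [Matrix.det_fin_three]⟩
def mP : SL3 m := ⟨!![0, 0, 1; 1, 0, 0; 0, 1, 0], by simp [Matrix.det_fin_three]⟩

theorem mA_val : ((mA m : SL3 m) : Matrix (Fin 3) (Fin 3) (ZMod m)) =
    !![1, 1, 0; 0, 1, 0; 0, 0, 1] := rfl
theorem mB_val : ((mB m : SL3 m) : Matrix (Fin 3) (Fin 3) (ZMod m)) =
    !![1, 0, 0; 0, 1, 1; 0, 0, 1] := rfl
theorem mC_val : ((mC m : SL3 m) : Matrix (Fin 3) (Fin 3) (ZMod m)) =
    !![1, 0, 1; 0, 1, 0; 0, 0, 1] := rfl
theorem mP_val : ((mP m : SL3 m) : Matrix (Fin 3) (Fin 3) (ZMod m)) =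
    !![0, 0, 1; 1, 0, 0; 0, 1, 0] := rfl

theorem conjP : mP m * mA m * (mP m)⁻¹ = mB m := by
  rw [mul_inv_eq_iff_eq_mul]
  apply Subtype.ext
  rw [Matrix.SpecialLinearGroup.coe_mul, Matrix.SpecialLinearGroup.coe_mul, mA_val, mB_val, mP_val]
  ext i j
  fin_cases i <;> fin_cases j <;> simp [Matrix.mul_apply, Fin.sum_univ_three]

theorem commAB : mA m * mB m * (mA m)⁻¹ * (mB m)⁻¹ = mC m := by
  rw [mul_inv_eq_iff_eq_mul, mul_inv_eq_iff_eq_mul]
  apply Subtype.ext
  rw [Matrix.SpecialLinearGroup.coe_mul, Matrix.SpecialLinearGroup.coe_mul,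
    Matrix.SpecialLinearGroup.coe_mul, mA_val, mB_val, mC_val]
  ext i j
  fin_cases i <;> fin_cases j <;> simp [Matrix.mul_apply, Fin.sum_univ_three]

theorem mA_pow (n : ℕ) : ((mA m ^ n : SL3 m) : Matrix (Fin 3) (Fin 3) (ZMod m)) =
    !![1, (n : ZMod m), 0; 0, 1, 0; 0, 0, 1] := by
  induction n with
  | zero =>
    ext i j
    fin_cases i <;> fin_cases j <;> simp
  | succ n ih =>
    rw [pow_succ, Matrix.SpecialLinearGroup.coe_mul, ih]
    ext i j
    fin_cases i <;> fin_cases j <;> simp [mA_val, Matrix.mul_apply, Fin.sum_univ_three, add_comm]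

theorem mC_pow (n : ℕ) : ((mC m ^ n : SL3 m) : Matrix (Fin 3) (Fin 3) (ZMod m)) =
    !![1, 0, (n : ZMod m); 0, 1, 0; 0, 0, 1] := by
  induction n with
  | zero =>
    ext i j
    fin_cases i <;> fin_cases j <;> simp
  | succ n ih =>
    rw [pow_succ, Matrix.SpecialLinearGroup.coe_mul, ih]
    ext i j
    fin_cases i <;> fin_cases j <;> simp [mC_val, Matrix.mul_apply, Fin.sum_univ_three, add_comm]

theorem mA_order : orderOf (mA m) = m := by
  apply Nat.dvd_antisymm
  · apply orderOf_dvd_of_pow_eq_one
    apply Subtype.ext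
    rw [mA_pow]
    ext i j
    fin_cases i <;> fin_cases j <;> simp
  · have h := pow_orderOf_eq_one (mA m)
    have h1 := mA_pow m (orderOf (mA m))
    rw [h] at h1
    have h2 := congrFun (congrFun h1 0) 1
    simp at h2
    exact (ZMod.natCast_eq_zero_iff _ _).1 h2.symm

theorem mC_order : orderOf (mC m) = m := by
  apply Nat.dvd_antisymm
  · apply orderOf_dvd_of_pow_eq_one
    apply Subtype.ext
    rw [mC_pow]
    ext i j
    fin_cases i <;> fin_cases j <;> simp
  · have h := pow_orderOf_eq_one (mC m)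
    have h1 := mC_pow m (orderOf (mC m))
    rw [h] at h1
    have h2 := congrFun (congrFun h1 0) 2
    simp at h2
    exact (ZMod.natCast_eq_zero_iff _ _).1 h2.symm

/-- the representation. -/
def rep : F2 →* SL3 m := FreeGroup.lift ![mA m, mP m]

theorem rep_x : rep m x = mA m := by simp [rep, x]
theorem rep_y : rep m y = mP m := by simp [rep, y]
theorem rep_w : rep m w = mC m := by
  rw [w, map_mul, map_mul, map_mul, map_inv, map_inv, map_mul, map_mul, map_inv, rep_x, rep_y,
    conjP, commAB]

end rep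

theorem hal (q : FQ F2) : ∃ r : FQ F2, r.φ.ker ≤ q.φ.ker ∧ orderOf (r.φ x) = orderOf (r.φ w) := by
  set m := Nat.card q.Q with hm
  have hm0 : m ≠ 0 := Nat.card_pos.ne'
  haveI : NeZero m := ⟨hm0⟩
  haveI : Finite (SL3 m) := Subtype.finite
  refine ⟨⟨q.Q × SL3 m, q.φ.prod (rep m)⟩, ?_, ?_⟩
  · intro g hg
    have h1 : (q.φ g, rep m g) = (1, 1) := MonoidHom.mem_ker.mp hg
    exact MonoidHom.mem_ker.mpr (congrArg Prod.fst h1)
  · show orderOf (q.φ x, rep m x) = orderOf (q.φ w, rep m w)
    rw [Prod.orderOf, Prod.orderOf]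
    simp only [rep_x, rep_w, mA_order, mC_order]
    rw [Nat.lcm_eq_right (orderOf_dvd_natCard _), Nat.lcm_eq_right (orderOf_dvd_natCard _)]

end Pool.H679R3.RfSolv
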