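import Pool.Agent.H679R3.RfSolv
import Mathlib

set_option autoImplicit false

namespace Pool.H679R3.RfSolv

open Pool.CS

/-- the relator `t x t⁻¹ [x, y x y⁻¹]⁻¹`. -/
def rel : FreeGroup (Fin 3) :=
  FreeGroup.of 2 * FreeGroup.of 0 * (FreeGroup.of 2)⁻¹ *
    (FreeGroup.of 0 * (FreeGroup.of 1 * FreeGroup.of 0 * (FreeGroup.of 1)⁻¹) *
      (FreeGroup.of 0)⁻¹ * (FreeGroup.of 1 * FreeGroup.of 0 * (FreeGroup.of 1)⁻¹)⁻¹)⁻¹

abbrev P := PresentedGroup ({rel} : Set (FreeGroup (Fin 3)))

def pX : P := PresentedGroup.of 0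
def pY : P := PresentedGroup.of 1
def pT : P := PresentedGroup.of 2

theorem pRel : pT * pX * pT⁻¹ = pX * (pY * pX * pY⁻¹) * pX⁻¹ * (pY * pX * pY⁻¹)⁻¹ := by
  rw [← mul_inv_eq_one]
  exact PresentedGroup.one_of_mem (rels := {rel}) rfl

theorem derived (k : ℕ) : pX ∈ derivedSeries P k := by
  induction k with
  | zero => exact Subgroup.mem_top _
  | succ k ih =>
    have hN : (derivedSeries P k).Normal := inferInstance
    have h1 : pY * pX * pY⁻¹ ∈ derivedSeries P k := hN.conj_mem _ ih _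
    have h2 : pX * (pY * pX * pY⁻¹) * pX⁻¹ * (pY * pX * pY⁻¹)⁻¹ ∈ derivedSeries P (k + 1) := by
      rw [derivedSeries_succ]
      exact Subgroup.commutator_mem_commutator ih h1
    rw [← pRel] at h2
    have hN' : (derivedSeries P (k + 1)).Normal := inferInstance
    have h3 := hN'.conj_mem _ h2 pT⁻¹
    have h4 : pT⁻¹ * (pT * pX * pT⁻¹) * pT⁻¹⁻¹ = pX := by group
    rwa [h4] at h3

abbrev QQ (φ : Subgroup.zpowers x ≃* Subgroup.zpowers w) :=
  HNNExtension F2 (Subgroup.zpowers x) (Subgroup.zpowers w) φ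

theorem of_w (φ : Subgroup.zpowers x ≃* Subgroup.zpowers w) :
    (HNNExtension.of w : QQ φ) = HNNExtension.of x * (HNNExtension.of y *
        HNNExtension.of x * (HNNExtension.of y)⁻¹) *
      (HNNExtension.of x)⁻¹ * (HNNExtension.of y * HNNExtension.of x * (HNNExtension.of y)⁻¹)⁻¹ := by
  rw [← map_inv, ← map_inv, ← map_mul, ← map_mul, ← map_mul, ← map_mul, ← map_inv, ← map_mul]
  rfl

theorem exists_hnn : ∃ (Q : Type) (_ : Group Q) (f : P →* Q), Function.Injective f ∧ RF Q ∧
    f pX ≠ 1 := by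
  obtain ⟨φ, hφ⟩ := cyciso x w (not_isOfFinOrder_of_isMulTorsionFree x_ne)
    (not_isOfFinOrder_of_isMulTorsionFree w_ne)
  have hrf := (hnn_rf x w φ hφ (free_rf (Fin 2)) sep_x sep_w hal).1
  -- the map to the HNN extension
  let v : Fin 3 → QQ φ := ![HNNExtension.of x, HNNExtension.of y, HNNExtension.t]
  have hv : ∀ r ∈ ({rel} : Set (FreeGroup (Fin 3))), FreeGroup.lift v r = 1 := by
    intro r hr
    rw [Set.mem_singleton_iff] at hr
    subst hr
    rw [rel, map_mul, map_mul, map_mul, map_inv, map_inv, mul_inv_eq_one]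
    simp only [map_mul, map_inv, FreeGroup.lift_apply_of]
    have h1 := HNNExtension.equiv_eq_conj (φ := φ) ⟨x, Subgroup.mem_zpowers x⟩
    rw [hφ] at h1
    show HNNExtension.t * HNNExtension.of x * (HNNExtension.t)⁻¹ =
      HNNExtension.of x * (HNNExtension.of y * HNNExtension.of x * (HNNExtension.of y)⁻¹) *
      (HNNExtension.of x)⁻¹ * (HNNExtension.of y * HNNExtension.of x * (HNNExtension.of y)⁻¹)⁻¹
    have h2 := of_w φ
    rw [← h2]
    exact h1.symm
  let f : P →* QQ φ := PresentedGroup.toGroup hv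
  -- the map back
  let g0 : F2 →* P := FreeGroup.lift ![pX, pY]
  have hg0x : g0 x = pX := by simp [g0, x]
  have hg0y : g0 y = pY := by simp [g0, y]
  have hg0w : g0 w = pT * pX * pT⁻¹ := by
    rw [pRel, w]
    simp only [map_mul, map_inv, hg0x, hg0y]
  have hpow : ∀ n : ℤ, φ ⟨x ^ n, Subgroup.zpow_mem_zpowers x n⟩ =
      ⟨w ^ n, Subgroup.zpow_mem_zpowers w n⟩ := by
    intro n
    have e1 : (⟨x ^ n, Subgroup.zpow_mem_zpowers x n⟩ : Subgroup.zpowers x) =
        ⟨x, Subgroup.mem_zpowers x⟩ ^ n := rfl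
    rw [e1, map_zpow, hφ]
    rfl
  have hg : ∀ a : Subgroup.zpowers x, pT * g0 (a : F2) = g0 (φ a : F2) * pT := by
    rintro ⟨a, n, rfl⟩
    have e2 := hpow n
    have e3 : ((φ ⟨x ^ n, Subgroup.zpow_mem_zpowers x n⟩ : Subgroup.zpowers w) : F2) = w ^ n := by
      rw [e2]
    show pT * g0 (x ^ n) = g0 ((φ ⟨x ^ n, _⟩ : Subgroup.zpowers w) : F2) * pT
    rw [e3, map_zpow, map_zpow, hg0x, hg0w, conj_zpow]
    group
  let g : QQ φ →* P := HNNExtension.lift g0 pT hg
  have hgf : ∀ p : P, g (f p) = p := by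
    intro p
    have : g.comp f = MonoidHom.id P := by
      apply PresentedGroup.ext
      intro i
      show g (f (PresentedGroup.of i)) = PresentedGroup.of i
      have hfi : f (PresentedGroup.of i) = v i := PresentedGroup.toGroup.of hv
      rw [hfi]
      fin_cases i
      · show g (HNNExtension.of x) = pX
        rw [HNNExtension.lift_of]; exact hg0x
      · show g (HNNExtension.of y) = pY
        rw [HNNExtension.lift_of]; exact hg0y
      · show g HNNExtension.t = pT
        rw [HNNExtension.lift_t]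
    exact DFunLike.congr_fun this p
  refine ⟨QQ φ, inferInstance, f, ?_, hrf, ?_⟩
  · intro a b hab
    rw [← hgf a, hab, hgf b]
  · intro h
    have h1 : f pX = HNNExtension.of x := PresentedGroup.toGroup.of hv
    rw [h1] at h
    apply x_ne
    apply HNNExtension.of_injective (φ := φ)
    rw [h, map_one]

end Pool.H679R3.RfSolv
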